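import Pool.Agent.Work.MP_969914_nt.RMain

namespace Pool.Agent.Results.MP_969914_nt.FunctionFields

theorem result :
    ∀ (K : Type) [Field K],
      (∃ (Fq : Type) (_ : Field Fq) (_ : Finite Fq) (_ : Algebra (RatFunc Fq) K),
          FunctionField Fq K) →
      ringChar K ≠ 2 →
      ∀ (a0 a1 a2 b0 b1 b2 : K),
      (a0 * b2 - a2 * b0) ^ 2 - (a0 * b1 - a1 * b0) * (a1 * b2 - a2 * b1) ≠ 0 →
      ∀ Φ : AlgebraicClosure K × AlgebraicClosure K → AlgebraicClosure K × AlgebraicClosure K,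
      (∀ x y : AlgebraicClosure K,
        Φ (x, y) =
          (algebraMap K (AlgebraicClosure K) a0 * x ^ 2
              + algebraMap K (AlgebraicClosure K) a1 * x * y
              + algebraMap K (AlgebraicClosure K) a2 * y ^ 2,
            algebraMap K (AlgebraicClosure K) b0 * x ^ 2
              + algebraMap K (AlgebraicClosure K) b1 * x * y
              + algebraMap K (AlgebraicClosure K) b2 * y ^ 2)) →
      ∀ C : AlgebraicClosure K × AlgebraicClosure K → AlgebraicClosure K,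
      (∀ x y : AlgebraicClosure K,
        C (x, y) =
          algebraMap K (AlgebraicClosure K) (a0 * b1 - a1 * b0) * x ^ 2
            + 2 * algebraMap K (AlgebraicClosure K) (a0 * b2 - a2 * b0) * x * y
            + algebraMap K (AlgebraicClosure K) (a1 * b2 - a2 * b1) * y ^ 2) →
      (∀ n : ℕ,
        Set.ncard {v : AlgebraicClosure K × AlgebraicClosure K |
          (v.2 = 1 ∨ v = (1, 0)) ∧ (Φ^[n] v).1 = 0} = 2 ^ n) →
      (∀ M : ℕ, ∃ n : ℕ,
        M * Module.finrank K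
          (IntermediateField.adjoin K
            {z : AlgebraicClosure K | (Φ^[n] (z, 1)).1 = 0}) < 2 ^ (2 ^ n - 1)) →
      ((∀ v : AlgebraicClosure K × AlgebraicClosure K, v ≠ 0 → C v = 0 →
          ∃ m n : ℕ, m < n ∧
            (Φ^[m] v).1 * (Φ^[n] v).2 = (Φ^[n] v).1 * (Φ^[m] v).2)
        ∨ (∃ v w : AlgebraicClosure K × AlgebraicClosure K,
            v ≠ 0 ∧ w ≠ 0 ∧ C v = 0 ∧ C w = 0 ∧ v.1 * w.2 ≠ w.1 * v.2 ∧
            ∃ r : ℕ, 1 ≤ r ∧
              (Φ^[r + 1] v).1 * (Φ^[r + 1] w).2 = (Φ^[r + 1] w).1 * (Φ^[r + 1] v).2)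
        ∨ (∃ n : ℕ, 1 ≤ n ∧ (Φ^[n] (0, 1)).1 = 0)
        ∨ (∃ p s t : AlgebraicClosure K, p * t ≠ 0 ∧ (s ≠ 0 ∨ p ≠ t) ∧
            ∀ x y : AlgebraicClosure K, (x, y) ≠ 0 →
              (Φ (p * x, s * x + t * y)).1 * (s * (Φ (x, y)).1 + t * (Φ (x, y)).2)
                = p * (Φ (x, y)).1 * (Φ (p * x, s * x + t * y)).2)) :=
  JR.jones

end Pool.Agent.Results.MP_969914_nt.FunctionFields
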