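import Pool.Agent.Work.MP_969914_nt.Q.Auto

namespace Pool.Agent.Results.MP_969914_nt.RationalPolynomials

theorem result (c : ℚ)
    (hclass : (c.num % 2 = 1 ∧ c.num % 4 = (c.den : ℤ) % 4) ∨ (c.den : ℤ) % 4 = 2 ∨
      (¬ IsSquare (-c) ∧ ¬ IsSquare (c ^ 2 + c) ∧
        ∃ s : ℤ, ((s = 1 ∧ -1 < c) ∨ (s = -1 ∧ c < -2)) ∧
          (((c.den : ℤ) % 4 = 0 ∧ s * c.num % 4 = 3) ∨
            ((c.num % 4 = 0 ∨ (c.num + (c.den : ℤ)) % 4 = 0) ∧ s * (c.den : ℤ) % 4 = 3) ∨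
            (c.num % 4 = 2 ∧ s * (c.den : ℤ) % 4 = 1))))
    (n : ℕ) :
    2 ^ (2 ^ n - 1) ≤ (if (c.num + (c.den : ℤ)) % 4 = 0 ∧ IsSquare (-1 - c) then 2 else 1) *
      Module.finrank ℚ (IntermediateField.adjoin ℚ
        {z : AlgebraicClosure ℚ |
          (fun x : AlgebraicClosure ℚ => x ^ 2 + (c : AlgebraicClosure ℚ))^[n] z = 0}) := by
  have : Algebra.IsAlgebraic ℚ (AlgebraicClosure ℚ) := AlgebraicClosure.isAlgebraic ℚ
  have hd : (if (c.num + (c.den : ℤ)) % 4 = 0 ∧ IsSquare (-1 - c) then 2 else 1) = 2 ∨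
      ((if (c.num + (c.den : ℤ)) % 4 = 0 ∧ IsSquare (-1 - c) then 2 else 1) = 1 ∧
        ¬ IsSquare (-1 - c)) := by
    split_ifs with h
    · exact Or.inl rfl
    · refine Or.inr ⟨rfl, fun h' => h ⟨?_, h'⟩⟩
      obtain ⟨h3, h4, h5⟩ := Pool.Agent.Work.MP_969914_nt.QR.sq_third h'
      rcases hclass with h6 | h6 | ⟨-, -, s, ⟨rfl, h7⟩ | ⟨rfl, -⟩, h6⟩
      · omega
      · omega
      · exact absurd h3 (not_le.2 h7)
      · omega
  rcases hclass with h | h | ⟨h1, h2, s, hs, h⟩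
  · obtain ⟨h1, h2⟩ := Pool.Agent.Work.MP_969914_nt.QR.auto_ns c (Or.inl h)
    exact Pool.Agent.Work.MP_969914_nt.QR.main' c (Or.inl h) h1 h2 hd n
  · obtain ⟨h1, h2⟩ := Pool.Agent.Work.MP_969914_nt.QR.auto_ns c (Or.inr h)
    exact Pool.Agent.Work.MP_969914_nt.QR.main' c (Or.inr h) h1 h2 hd n
  · exact Pool.Agent.Work.MP_969914_nt.QR.main c s hs (Or.inr (Or.inr h)) h1 h2 hd n

end Pool.Agent.Results.MP_969914_nt.RationalPolynomials
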